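import Pool.Agent.H68.SS.Main2

set_option autoImplicit false

/-!
# Semisplaying is competitive for few distinct keys and for random requests

`Tr`, `keys`, `IsBST`, `dep`, `locate` are those of `Pool.Agent.H581R2.SplayDef`, the semisplaying rule
`semisplay` and its cost `costSemi` (one plus the depth of the key for a request, one for a rotation)
are defined in `Pool.Agent.H68.SS.Defs`. `Exec T X c` (`Pool.Agent.TH49.Spl.Defs`): there is an
execution of cost `c` for the requests `X` with initial tree `T`, with arbitrary rotations of cost
one at any time; `optAny K X` is the least cost over all executions and all initial trees with the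
keys `K`, so it is at most OPT. `n` is the number of keys and `T` an arbitrary initial tree.

(1) For every sequence with `d` distinct requested keys, semisplaying costs at most
`(12 ⌊log₂ d⌋ + 6) OPT(T, X)`, with no additive term, for trees of any size.

(2) For `m ≥ n` and every `ε > 0`, all but at most `(2n)^(ε m)` of the `n^m` request sequences of length `m` have
a cost of at most `(240 / ε) OPT`.

(3) Requests chosen by an adaptive adversary: `π h x` is the conditional probability of the request `x`
after the requests `h`. If `π h x ≤ A p(x)^δ` for a fixed `p` with sum at most one (for instance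
independent requests with any distribution `p`, with `A = δ = 1`), then with probability at least
`1 - 2^(-m)` semisplaying costs at most `((98 + 8 log₂ A) OPT + 44 n log₂ (2n)) / δ`.

(4) If in every step with (conditional) probability at least `ε` the request `x` has
`π h x ≤ A n^(-δ)` and is otherwise chosen by the adversary as he likes, then with probability at least
`1 - 2^(-m) - exp(-ε m / 4)` it costs at most `((354 + 8 log₂ A) OPT + 164 n log₂ (2n)) / (ε δ)`.

Proof. An access lemma for semisplaying with levels: a zig-zig or zig-zag step of semisplaying is paid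
for by the sum over the nodes of the least level in the subtree, provided that the levels are such that
between two keys of equal level there is one of a smaller level. For (1) the levels are the depths in a
balanced tree of the requested keys and nodes without requested keys pay as well; for (2) to (4) they
are the depths in a weight balanced tree. The lower bounds for OPT are those of the library results
on splaying (problem MP_c42954_lc): the number of nodes with a requested key below them, and the
counting of sequences of small optimal cost.
-/

namespace Pool.Agent.Results.MP_fec8f2_lc.RandomAndFewKeys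

open Pool.Agent.H581R2.Splay Pool.Agent.TH49.Spl Pool.Agent.Y395.SP Pool.Agent.H68.SS

open scoped Classical in
theorem result (T : Tr) (hT : IsBST T) (hn : T ≠ Tr.nil) :
    (∀ (X : List ℕ) (c : ℕ), (∀ x ∈ X, x ∈ keys T) → Exec T X c →
      costSemi T X ≤ (12 * Nat.log 2 X.toFinset.card + 6) * c) ∧
    (∀ (m : ℕ) (ε : ℝ), 0 < ε → (keys T).length ≤ m →
      (((seqs (keys T).toFinset m).filter (fun X =>
        240 / ε * (optAny (keys T) (List.ofFn X) : ℝ) < costSemi T (List.ofFn X))).card : ℝ) ≤
        (2 * (keys T).length : ℝ) ^ (ε * m)) ∧
    (∀ π : List ℕ → ℕ → ℝ, (∀ h x, 0 ≤ π h x) → (∀ h, ∑ x ∈ (keys T).toFinset, π h x = 1) →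
      ∀ A δ : ℝ, 1 ≤ A → 0 < δ → δ ≤ 1 → ∀ m : ℕ,
      (∀ p : ℕ → ℝ, (∀ x, 0 ≤ p x) → ∑ x ∈ (keys T).toFinset, p x ≤ 1 →
        (∀ h, ∀ x ∈ keys T, π h x ≤ A * p x ^ δ) →
        1 - (1 / 2 : ℝ) ^ m ≤ prob (keys T).toFinset π m (fun X => (costSemi T X : ℝ) ≤
          ((98 + 8 * Real.logb 2 A) * (optAny (keys T) X : ℝ) +
            44 * ((keys T).length * Real.logb 2 (2 * (keys T).length))) / δ)) ∧
      (∀ ε : ℝ, 0 < ε → ε ≤ 1 →
        (∀ h, ε ≤ ∑ x ∈ (keys T).toFinset.filter
          (fun x => π h x ≤ A * ((keys T).length : ℝ) ^ (-δ)), π h x) →
        1 - (1 / 2 : ℝ) ^ m - Real.exp (-(ε * m / 4)) ≤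
          prob (keys T).toFinset π m (fun X => (costSemi T X : ℝ) ≤
            ((354 + 8 * Real.logb 2 A) * (optAny (keys T) X : ℝ) +
              164 * ((keys T).length * Real.logb 2 (2 * (keys T).length))) / (ε * δ)))) := by
  refine ⟨fun X c hX h => few_keys hT hX h, fun m ε hε hm => ?_,
    fun π h0 h1 A δ hA hδ hδ1 m => ⟨fun p hp0 hp1 hπ => prob_compl h1 ?_, fun ε hε hε1 hg => ?_⟩⟩
  · exact exceptions T hT hn m ε hε hm
  · have := random T hT hn π h0 p hp0 hp1 A δ hA hδ hδ1 hπ m
    unfold prob
    simp only [not_le]
    convert this
  · convert smoothed T hT hn π h0 h1 A δ ε hA hδ hδ1 hε hε1 (fun h => by convert hg h) m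

end Pool.Agent.Results.MP_fec8f2_lc.RandomAndFewKeys
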